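import Pool.Agent.Helper41.Cluster4.Goals

/-! Rotations about a fixed plane (packet RP for MP_c45da2_co). -/

namespace Pool.Agent.Helper13.C4

open Module Pool.Agent.Helper65.Delone Pool.Agent.Helper41.Cluster4
open scoped RealInnerProductSpace

variable {E : Type*} [NormedAddCommGroup E] [InnerProductSpace ℝ E]

theorem map_perp {P : Submodule ℝ E} {A : E ≃ₗᵢ[ℝ] E} (hA : ∀ v ∈ P, A v = v) {v : E}
    (hv : v ∈ Pᗮ) : A v ∈ Pᗮ := by
  rw [Submodule.mem_orthogonal] at hv ⊢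
  intro u hu
  have h : ⟪A u, A v⟫ = ⟪u, v⟫ := A.inner_map_map u v
  rw [hA u hu] at h
  rw [h]
  exact hv u hu

theorem eq_one_of_fix [FiniteDimensional ℝ E]
    (hF : ∀ A : E ≃ₗᵢ[ℝ] E, Rot A → 3 ≤ finrank ℝ (fixSpace A) → A = 1)
    {P : Submodule ℝ E} (hP : finrank ℝ P = 2) {C : E ≃ₗᵢ[ℝ] E} (hC : ∀ v ∈ P, C v = v)
    (hR : Rot C) {w : E} (hw : w ∉ P) (hCw : C w = w) : C = 1 := by
  refine hF C hR ?_
  have hlt : P < fixSpace C := by
    refine lt_of_le_of_ne (fun v hv => mem_fixSpace.2 (hC v hv)) ?_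
    intro h
    apply hw
    rw [h]
    exact mem_fixSpace.2 hCw
  have h := Submodule.finrank_lt_finrank_of_lt hlt
  omega

theorem eq_of_apply_eq [FiniteDimensional ℝ E]
    (hF : ∀ A : E ≃ₗᵢ[ℝ] E, Rot A → 3 ≤ finrank ℝ (fixSpace A) → A = 1)
    {P : Submodule ℝ E} (hP : finrank ℝ P = 2) {H : Subgroup (E ≃ₗᵢ[ℝ] E)}
    (hH : ∀ A ∈ H, ∀ v ∈ P, A v = v) (hR : ∀ A ∈ H, Rot A)
    {w : E} (hw : w ∉ P) {A B : E ≃ₗᵢ[ℝ] E} (hA : A ∈ H) (hB : B ∈ H) (h : A w = B w) :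
    A = B := by
  have hC : B⁻¹ * A ∈ H := H.mul_mem (H.inv_mem hB) hA
  have h1 : B⁻¹ * A = 1 := by
    refine eq_one_of_fix hF hP (hH _ hC) (hR _ hC) hw ?_
    change B.symm (A w) = w
    rw [h]
    exact B.symm_apply_apply w
  have h2 : B * (B⁻¹ * A) = B * 1 := by rw [h1]
  rwa [mul_inv_cancel_left, mul_one] at h2

/-- `n` points in the orbit of a vector of the orthogonal plane: two of them are close. -/
theorem close_pair [FiniteDimensional ℝ E]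
    (hF : ∀ A : E ≃ₗᵢ[ℝ] E, Rot A → 3 ≤ finrank ℝ (fixSpace A) → A = 1)
    (hCi : Circle4 E) {P : Submodule ℝ E} (hP : finrank ℝ P = 2) (hQ : finrank ℝ Pᗮ = 2)
    {H : Subgroup (E ≃ₗᵢ[ℝ] E)} (hfin : Finite H)
    (hH : ∀ A ∈ H, ∀ v ∈ P, A v = v) (hR : ∀ A ∈ H, Rot A)
    {v : E} (hv : v ∈ Pᗮ) (hv0 : v ≠ 0) {n : ℕ} (hn : 2 ≤ n) (hcard : n ≤ Nat.card H) :
    ∃ A ∈ H, ∃ B ∈ H, A ≠ B ∧
      ‖v‖ ^ 2 * Real.cos (2 * Real.pi / n) ≤ ⟪A v, B v⟫ := by
  classical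
  have hvP : v ∉ P := by
    intro h
    apply hv0
    have h2 := Submodule.mem_orthogonal P v |>.1 hv v h
    exact inner_self_eq_zero.1 h2
  haveI : Fintype H := Fintype.ofFinite H
  have hinj : Function.Injective (fun A : H => (A : E ≃ₗᵢ[ℝ] E) v) := by
    intro A B h
    exact Subtype.ext (eq_of_apply_eq hF hP hH hR hvP A.2 B.2 h)
  let s : Finset E := Finset.univ.image (fun A : H => (A : E ≃ₗᵢ[ℝ] E) v)
  have hs : s.card = Nat.card H := by
    rw [Nat.card_eq_fintype_card]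
    exact Finset.card_image_of_injective _ hinj
  obtain ⟨a, ha, b, hb, hab, hin⟩ := hCi Pᗮ hQ ‖v‖ s n (by
    intro x hx
    obtain ⟨A, -, rfl⟩ := Finset.mem_image.1 hx
    exact ⟨map_perp (hH _ A.2) hv, (A : E ≃ₗᵢ[ℝ] E).norm_map v⟩) hn (by rw [hs]; exact hcard)
  obtain ⟨A, -, rfl⟩ := Finset.mem_image.1 ha
  obtain ⟨B, -, rfl⟩ := Finset.mem_image.1 hb
  refine ⟨A, A.2, B, B.2, ?_, hin⟩
  intro h
  exact hab (by rw [h])

theorem cos7 : 1 / 2 < Real.cos (2 * Real.pi / (7 : ℕ)) := by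
  rw [← Real.cos_pi_div_three]
  apply Real.cos_lt_cos_of_nonneg_of_le_pi
  · positivity
  · have := Real.pi_pos
    linarith
  · have := Real.pi_pos
    push_cast
    linarith

theorem part2 [FiniteDimensional ℝ E]
    (hF : ∀ A : E ≃ₗᵢ[ℝ] E, Rot A → 3 ≤ finrank ℝ (fixSpace A) → A = 1)
    (hCi : Circle4 E) {P : Submodule ℝ E} (hP : finrank ℝ P = 2) (hQ : finrank ℝ Pᗮ = 2)
    {H : Subgroup (E ≃ₗᵢ[ℝ] E)} (hfin : Finite H)
    (hH : ∀ A ∈ H, ∀ v ∈ P, A v = v) (hR : ∀ A ∈ H, Rot A)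
    {N : Set E} (hN : UCode N) (hI : Inv H N) {w : E} (hw : w ∈ N) (hwP : w ∉ P) :
    Nat.card H ≤ 6 := by
  by_contra hcon
  have h7 : 7 ≤ Nat.card H := by omega
  obtain ⟨p, hp, v, hv, rfl⟩ := P.exists_add_mem_mem_orthogonal w
  have hv0 : v ≠ 0 := by
    rintro rfl
    apply hwP
    rw [add_zero]
    exact hp
  obtain ⟨A, hA, B, hB, hAB, hin⟩ := close_pair hF hCi hP hQ hfin hH hR hv hv0 (by norm_num) h7
  have hAw : A (p + v) = p + A v := by rw [map_add, hH A hA p hp]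
  have hBw : B (p + v) = p + B v := by rw [map_add, hH B hB p hp]
  have hne : A (p + v) ≠ B (p + v) := by
    intro h
    exact hAB (eq_of_apply_eq hF hP hH hR hwP hA hB h)
  have hsep := hN.sep _ (hI A hA _ hw) _ (hI B hB _ hw) hne
  rw [hAw, hBw] at hsep
  have h1 : ⟪p, B v⟫ = 0 := (Submodule.mem_orthogonal P _).1 (map_perp (hH B hB) hv) p hp
  have h2 : ⟪A v, p⟫ = 0 := by
    rw [real_inner_comm]
    exact (Submodule.mem_orthogonal P _).1 (map_perp (hH A hA) hv) p hp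
  have h3 : ⟪p + A v, p + B v⟫ = ‖p‖ ^ 2 + ⟪A v, B v⟫ := by
    rw [inner_add_left, inner_add_right, inner_add_right, h1, h2, real_inner_self_eq_norm_sq]
    ring
  rw [h3] at hsep
  have h4 : ⟪p, v⟫ = 0 := (Submodule.mem_orthogonal P _).1 hv p hp
  have h5 : ‖p + v‖ ^ 2 = ‖p‖ ^ 2 + ‖v‖ ^ 2 := by
    rw [norm_add_sq_real, h4]
    ring
  rw [hN.norm _ hw] at h5
  have h6 := cos7
  have h8 : 0 < ‖v‖ ^ 2 := by
    have := norm_pos_iff.2 hv0
    positivity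
  have h9 : ‖v‖ ^ 2 * (1 / 2) < ‖v‖ ^ 2 * Real.cos (2 * Real.pi / (7 : ℕ)) :=
    mul_lt_mul_of_pos_left h6 h8
  have h10 : 0 ≤ ‖p‖ ^ 2 := by positivity
  nlinarith

/-- an isometry of a plane without fixed vectors, in an orthonormal basis -/
theorem rot_form {c s c' s' : ℝ} (h1 : c ^ 2 + s ^ 2 = 1) (h2 : c' ^ 2 + s' ^ 2 = 1)
    (h3 : c * s' + s * c' = 0) : (s' = -s ∧ c' = c) ∨ (s' = s ∧ c' = -c) := by
  have h4 : (c * c' - s * s') ^ 2 = 1 := by
    have : (c * c' - s * s') ^ 2 + (c * s' + s * c') ^ 2 =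
        (c ^ 2 + s ^ 2) * (c' ^ 2 + s' ^ 2) := by ring
    rw [h1, h2, h3] at this
    linarith
  have h5 : c * c' - s * s' = 1 ∨ c * c' - s * s' = -1 := by
    have : (c * c' - s * s' - 1) * (c * c' - s * s' + 1) = 0 := by linarith
    rcases mul_eq_zero.1 this with h | h
    · left; linarith
    · right; linarith
  rcases h5 with h5 | h5
  · left
    constructor
    · linear_combination (-s) * h5 + c * h3 - s' * h1
    · linear_combination c * h5 + s * h3 - c' * h1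
  · right
    constructor
    · linear_combination (-s) * h5 + c * h3 - s' * h1
    · linear_combination c * h5 + s * h3 - c' * h1

theorem part1 [FiniteDimensional ℝ E]
    (hF : ∀ A : E ≃ₗᵢ[ℝ] E, Rot A → 3 ≤ finrank ℝ (fixSpace A) → A = 1)
    (hCi : Circle4 E) {P : Submodule ℝ E} (hP : finrank ℝ P = 2) (hQ : finrank ℝ Pᗮ = 2)
    {H : Subgroup (E ≃ₗᵢ[ℝ] E)} (hfin : Finite H)
    (hH : ∀ A ∈ H, ∀ v ∈ P, A v = v) (hR : ∀ A ∈ H, Rot A)
    (hsm : ∀ A ∈ H, A ≠ 1 → ∃ v : E, 2 / 15 * ‖v‖ < ‖A v - v‖) :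
    Nat.card H ≤ 47 := by
  by_contra hcon
  have h48 : 48 ≤ Nat.card H := by omega
  let b := (stdOrthonormalBasis ℝ Pᗮ).reindex (finCongr hQ)
  let e : E := (b 0 : E)
  let f : E := (b 1 : E)
  have he : e ∈ Pᗮ := (b 0).2
  have hf : f ∈ Pᗮ := (b 1).2
  have hen : ‖e‖ = 1 := b.orthonormal.1 0
  have hfn : ‖f‖ = 1 := b.orthonormal.1 1
  have hef : ⟪e, f⟫ = 0 := b.orthonormal.2 (by decide : (0 : Fin 2) ≠ 1)
  have hrep : ∀ u ∈ Pᗮ, u = ⟪e, u⟫ • e + ⟪f, u⟫ • f := by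
    intro u hu
    have h := b.sum_repr' (⟨u, hu⟩ : Pᗮ)
    rw [Fin.sum_univ_two] at h
    have h2 := congrArg (Subtype.val) h
    exact h2.symm
  have hee : ⟪e, e⟫ = 1 := by rw [real_inner_self_eq_norm_sq, hen]; norm_num
  have hff : ⟪f, f⟫ = 1 := by rw [real_inner_self_eq_norm_sq, hfn]; norm_num
  have hfe : ⟪f, e⟫ = 0 := by rw [real_inner_comm]; exact hef
  have he0 : e ≠ 0 := by
    intro h
    rw [h, norm_zero] at hen
    norm_num at hen
  obtain ⟨A, hA, B, hB, hAB, hin⟩ := close_pair hF hCi hP hQ hfin hH hR he he0 (by norm_num) h48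
  have hC : B⁻¹ * A ∈ H := H.mul_mem (H.inv_mem hB) hA
  obtain ⟨C, hCdef⟩ : ∃ C : E ≃ₗᵢ[ℝ] E, C = B⁻¹ * A := ⟨_, rfl⟩
  rw [← hCdef] at hC
  have hC1 : C ≠ 1 := by
    intro h
    apply hAB
    rw [h] at hCdef
    have h2 : B * 1 = B * (B⁻¹ * A) := by rw [hCdef]
    rw [mul_inv_cancel_left, mul_one] at h2
    exact h2.symm
  have hCe : ⟪C e, e⟫ = ⟪A e, B e⟫ := by
    have h1 : ⟪B (C e), B e⟫ = ⟪C e, e⟫ := B.inner_map_map _ _
    have h2 : B (C e) = A e := by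
      rw [hCdef]
      change B (B.symm (A e)) = A e
      exact B.apply_symm_apply _
    rw [← h1, h2]
  -- no fixed vector
  have hnofix : ∀ u ∈ Pᗮ, C u = u → u = 0 := by
    intro u hu hCu
    by_contra hu0
    have huP : u ∉ P := by
      intro h
      apply hu0
      exact inner_self_eq_zero.1 ((Submodule.mem_orthogonal P u).1 hu u h)
    exact hC1 (eq_one_of_fix hF hP (hH C hC) (hR C hC) huP hCu)
  -- coordinates
  obtain ⟨c, hc⟩ : ∃ c : ℝ, c = ⟪e, C e⟫ := ⟨_, rfl⟩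
  obtain ⟨s, hs⟩ : ∃ s : ℝ, s = ⟪f, C e⟫ := ⟨_, rfl⟩
  obtain ⟨c', hc'⟩ : ∃ c : ℝ, c = ⟪f, C f⟫ := ⟨_, rfl⟩
  obtain ⟨s', hs'⟩ : ∃ s : ℝ, s = ⟪e, C f⟫ := ⟨_, rfl⟩
  have hCE : C e = c • e + s • f := by
    rw [hc, hs]
    exact hrep _ (map_perp (hH C hC) he)
  have hCF : C f = s' • e + c' • f := by
    rw [hc', hs']
    exact hrep _ (map_perp (hH C hC) hf)
  have key : ∀ a b a' b' : ℝ, ⟪a • e + b • f, a' • e + b' • f⟫ = a * a' + b * b' := by
    intro a b a' b'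
    rw [inner_add_left, inner_add_right, inner_add_right]
    simp only [real_inner_smul_left, real_inner_smul_right, hee, hff, hef, hfe]
    ring
  have h1 : c ^ 2 + s ^ 2 = 1 := by
    have h : ⟪C e, C e⟫ = ⟪e, e⟫ := C.inner_map_map _ _
    rw [hCE, key, hee] at h
    linarith
  have h2 : c' ^ 2 + s' ^ 2 = 1 := by
    have h : ⟪C f, C f⟫ = ⟪f, f⟫ := C.inner_map_map _ _
    rw [hCF, key, hff] at h
    linarith
  have h3 : c * s' + s * c' = 0 := by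
    have h : ⟪C e, C f⟫ = ⟪e, f⟫ := C.inner_map_map _ _
    rw [hCE, hCF, key, hef] at h
    linarith
  rcases rot_form h1 h2 h3 with ⟨hs1, hc1⟩ | ⟨hs1, hc1⟩
  · -- rotation
    have hcc : Real.cos (2 * Real.pi / (48 : ℕ)) ≤ c := by
      rw [hen, one_pow, one_mul, ← hCe, real_inner_comm, ← hc] at hin
      exact hin
    have hcos : 1 - (2 * Real.pi / (48 : ℕ)) ^ 2 / 2 ≤ Real.cos (2 * Real.pi / (48 : ℕ)) :=
      Real.one_sub_sq_div_two_le_cos
    have hpi : Real.pi < 3.15 := Real.pi_lt_d2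
    have hpi0 := Real.pi_pos
    have hsq : (2 * Real.pi / (48 : ℕ)) ^ 2 ≤ (2 / 15) ^ 2 := by
      apply pow_le_pow_left₀ (by positivity)
      push_cast
      linarith
    have hc2 : 2 - 2 * c ≤ (2 / 15) ^ 2 := by linarith
    obtain ⟨u, hu⟩ := hsm C hC hC1
    obtain ⟨p, hp, v, hv, rfl⟩ := P.exists_add_mem_mem_orthogonal u
    obtain ⟨x, hx⟩ : ∃ x : ℝ, x = ⟪e, v⟫ := ⟨_, rfl⟩
    obtain ⟨y, hy⟩ : ∃ y : ℝ, y = ⟪f, v⟫ := ⟨_, rfl⟩
    have hvr : v = x • e + y • f := by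
      rw [hx, hy]
      exact hrep _ hv
    have hd : C (p + v) - (p + v) =
        (x * (c - 1) - y * s) • e + (x * s + y * (c - 1)) • f := by
      rw [map_add, hH C hC p hp, hvr, map_add, map_smul, map_smul, hCE, hCF, hs1, hc1]
      module
    have hn1 : ‖C (p + v) - (p + v)‖ ^ 2 = (x ^ 2 + y ^ 2) * (2 - 2 * c) := by
      rw [hd, ← real_inner_self_eq_norm_sq, key]
      have : (c - 1) ^ 2 + s ^ 2 = 2 - 2 * c := by nlinarith
      linear_combination (x ^ 2 + y ^ 2) * this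
    have hn2 : ‖v‖ ^ 2 = x ^ 2 + y ^ 2 := by
      rw [hvr, ← real_inner_self_eq_norm_sq, key]
      ring
    have h4 : ⟪p, v⟫ = 0 := (Submodule.mem_orthogonal P _).1 hv p hp
    have h5 : ‖p + v‖ ^ 2 = ‖p‖ ^ 2 + ‖v‖ ^ 2 := by
      rw [norm_add_sq_real, h4]
      ring
    have h6 : ‖C (p + v) - (p + v)‖ ^ 2 ≤ (2 / 15 * ‖p + v‖) ^ 2 := by
      rw [hn1, mul_pow, h5, ← hn2]
      have h7 : 0 ≤ ‖p‖ ^ 2 := by positivity
      have h8 : 0 ≤ ‖v‖ ^ 2 := by positivity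
      nlinarith
    have h9 : ‖C (p + v) - (p + v)‖ ≤ 2 / 15 * ‖p + v‖ :=
      le_of_sq_le_sq h6 (by positivity)
    linarith
  · -- reflection: fixed vector
    exfalso
    have hfx : C ((1 + c) • e + s • f) = (1 + c) • e + s • f := by
      rw [map_add, map_smul, map_smul, hCE, hCF, hs1, hc1]
      have : (1 + c) • (c • e + s • f) + s • (s • e + -c • f) =
          (c + (c ^ 2 + s ^ 2)) • e + s • f := by module
      rw [this, h1, add_comm c 1]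
    have hmem : (1 + c) • e + s • f ∈ Pᗮ :=
      Pᗮ.add_mem (Pᗮ.smul_mem _ he) (Pᗮ.smul_mem _ hf)
    have hz := hnofix _ hmem hfx
    have hz1 : 1 + c = 0 := by
      have h : ⟪(1 + c) • e + s • f, (1 : ℝ) • e + (0 : ℝ) • f⟫ = 0 := by
        rw [hz, inner_zero_left]
      rw [key] at h
      linarith
    have hz2 : s = 0 := by
      have h : ⟪(1 + c) • e + s • f, (0 : ℝ) • e + (1 : ℝ) • f⟫ = 0 := by
        rw [hz, inner_zero_left]
      rw [key] at h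
      linarith
    have hCff : C f = f := by
      rw [hCF, hs1, hc1, hz2, show -c = 1 by linarith]
      simp
    have := hnofix f hf hCff
    rw [this, norm_zero] at hfn
    norm_num at hfn

/-- PACKET RP -/
theorem rotPlane (hF : FixFacts E) (hC : Circle4 E) : RotPlane E := by
  intro h4 H P hfin hP hH hR
  haveI : FiniteDimensional ℝ E := FiniteDimensional.of_finrank_pos (by omega)
  have hQ : finrank ℝ Pᗮ = 2 := by
    have := P.finrank_add_finrank_orthogonal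
    omega
  refine ⟨fun hsm => part1 (hF h4).1 hC hP hQ hfin hH hR hsm, ?_⟩
  rintro N hN hI ⟨w, hw, hwP⟩
  exact part2 (hF h4).1 hC hP hQ hfin hH hR hN hI hw hwP

end Pool.Agent.Helper13.C4
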